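import Pool.Agent.Q267.E8.Stm

set_option autoImplicit false

/-!
# Project E8, job BB3 (helper156): a product of two binomial coefficients modulo `p²`
-/

namespace Pool.Agent.Q156.E8.BB3

open Finset Pool.Agent.Q267.CDE Pool.Agent.Q267.MW Pool.Agent.Q267.E8

variable (p : ℕ) [hp : Fact p.Prime]

theorem red_asc (m : ℕ) :
    (((p + 1).ascFactorial m : ℕ) : ZMod p) = ((m.factorial : ℕ) : ZMod p) := by
  induction m with
  | zero => simp
  | succ m ih =>
    rw [Nat.ascFactorial_succ, Nat.factorial_succ]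
    push_cast
    rw [ih, ZMod.natCast_self]
    ring

end Pool.Agent.Q156.E8.BB3

namespace Pool.Agent.Q156.E8

open Finset Pool.Agent.Q267.CDE Pool.Agent.Q267.MW Pool.Agent.Q267.E8

/-- **BB3.** -/
theorem bb3 : S_BB3 := by
  intro p q hp hpq
  have hodd : Odd p := ⟨4 * q + 1, by omega⟩
  -- exact identities
  have c1 := Nat.choose_mul_factorial_mul_factorial (n := 12 * q + 3) (k := 5 * q + 1) (by omega)
  have c2 := Nat.choose_mul_factorial_mul_factorial (n := 4 * q + 1) (k := q) (by omega)
  rw [show 12 * q + 3 - (5 * q + 1) = 7 * q + 2 by omega] at c1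
  rw [show 4 * q + 1 - q = 3 * q + 1 by omega] at c2
  have c3 := Nat.factorial_mul_ascFactorial p (4 * q)
  rw [show p + 4 * q = 12 * q + 3 by omega] at c3
  have c4 : p.factorial = p * (p - 1).factorial := (Nat.mul_factorial_pred hp.out.ne_zero).symm
  have d1 := congrArg (Nat.cast : ℕ → R p) c1
  have d2 := congrArg (Nat.cast : ℕ → R p) c2
  have d3 := congrArg (Nat.cast : ℕ → R p) c3
  have d4 := congrArg (Nat.cast : ℕ → R p) c4
  simp only [Nat.cast_mul] at d1 d2 d3 d4
  -- the unit
  set U : R p := (((5 * q + 1).factorial : ℕ) : R p) * (((7 * q + 2).factorial : ℕ) : R p) *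
    ((q.factorial : ℕ) : R p) * (((3 * q + 1).factorial : ℕ) : R p) with hU
  have hredU : red p U = -1 := by
    rw [hU, map_mul, map_mul, map_mul, red_nat, red_nat, red_nat, red_nat]
    have h1 := fact_refl p (3 * q + 1) (by omega)
    have h2 := fact_refl p q (by omega)
    rw [show p - 1 - (3 * q + 1) = 5 * q + 1 by omega] at h1
    rw [show p - 1 - q = 7 * q + 2 by omega] at h2
    have h3 : (-1 : ZMod p) ^ (3 * q + 1 + 1) * (-1) ^ (q + 1) = -1 := by
      rw [← pow_add]
      exact Odd.neg_one_pow ⟨2 * q + 1, by ring⟩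
    rw [← h1, ← h2] at h3
    linear_combination h3
  have hUu : IsUnit U := isUnit_of_red p (by
    rw [hredU]
    exact neg_ne_zero.2 one_ne_zero)
  apply hUu.mul_right_cancel
  have key : (p : R p) * ((((p - 1).factorial : ℕ) : R p) *
      (((p + 1).ascFactorial (4 * q) : ℕ) : R p) * (((4 * q + 1).factorial : ℕ) : R p)) =
      p * (-2 * U) := by
    apply p_mul_eq
    rw [map_mul, map_mul, map_mul, hredU, red_nat, red_nat, red_nat, BB3.red_asc,
      ZMod.wilsons_lemma, map_neg, map_ofNat]
    have h1 := fact_refl p (4 * q + 1) (by omega)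
    rw [show p - 1 - (4 * q + 1) = 4 * q + 1 by omega] at h1
    have h2 : (-1 : ZMod p) ^ (4 * q + 1 + 1) = 1 := Even.neg_one_pow ⟨2 * q + 1, by ring⟩
    rw [h2] at h1
    have h3 : (((4 * q + 1).factorial : ℕ) : ZMod p) =
        (4 * (q : ZMod p) + 1) * (((4 * q).factorial : ℕ) : ZMod p) := by
      rw [Nat.factorial_succ]
      push_cast
      ring
    have h4 : 2 * (4 * (q : ZMod p) + 1) = -1 := by
      have h5 : (2 * (4 * q + 1) + 1 : ℕ) = p := by omega
      have h6 := congrArg (Nat.cast : ℕ → ZMod p) h5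
      rw [ZMod.natCast_self] at h6
      push_cast at h6
      linear_combination h6
    set f := (((4 * q).factorial : ℕ) : ZMod p)
    set g := (((4 * q + 1).factorial : ℕ) : ZMod p)
    -- `g = (4q+1) f`, `g² = 1`, `2 (4q+1) = -1`
    linear_combination (-2 : ZMod p) * g * h3 - f * g * h4 + 2 * h1
  linear_combination (((4 * q + 1).choose q : ℕ) : R p) * ((q.factorial : ℕ) : R p) *
    (((3 * q + 1).factorial : ℕ) : R p) * d1 + (((12 * q + 3).factorial : ℕ) : R p) * d2 -
    (((4 * q + 1).factorial : ℕ) : R p) * d3 + (((4 * q + 1).factorial : ℕ) : R p) *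
    (((p + 1).ascFactorial (4 * q) : ℕ) : R p) * d4 + key

end Pool.Agent.Q156.E8
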