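import Pool.Agent.Q267.E8.Stm

set_option autoImplicit false

/-!
# Project E8, job REC (helper156): the recursion of the sum `TT`
-/

namespace Pool.Agent.Q156.E8.REC

open Finset Pool.Agent.Q267.CDE Pool.Agent.Q267.MW Pool.Agent.Q267.E8

variable (p : ℕ) [hp : Fact p.Prime]

theorem fact_unit (k : ℕ) (hk : k < p) :
    ((k.factorial : ℕ) : R p) * ((k.factorial : ℕ) : R p)⁻¹ = 1 := by
  apply ZMod.mul_inv_of_unit
  apply isUnit_of_red
  rw [red_nat]
  exact fact_ne p k hk

theorem inv_fact (k : ℕ) (hk : k + 1 < p) :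
    ((k : R p) + 1) * (((k + 1).factorial : ℕ) : R p)⁻¹ = ((k.factorial : ℕ) : R p)⁻¹ := by
  have h1 := fact_unit p (k + 1) hk
  have h2 := fact_unit p k (by omega)
  have h3 : IsUnit ((k.factorial : ℕ) : R p) := isUnit_of_red p (by
    rw [red_nat]
    exact fact_ne p k (by omega))
  apply h3.mul_left_cancel
  rw [h2]
  rw [Nat.factorial_succ] at h1 ⊢
  push_cast at h1 ⊢
  linear_combination h1

omit hp in
theorem bR_zero (x : R p) : bR p x 0 = 1 := by
  simp [bR]

/-- `(k+1) C(x,k+1) = (x-k) C(x,k)` -/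
theorem bR_succ (x : R p) (k : ℕ) (hk : k + 1 < p) :
    ((k : R p) + 1) * bR p x (k + 1) = (x - k) * bR p x k := by
  unfold bR
  rw [prod_range_succ]
  have h := inv_fact p k hk
  linear_combination (∏ i ∈ range k, (x - (i : R p))) * (x - k) * h

omit hp in
/-- `(x+1) C(x,k) = (x+1-k) C(x+1,k)` -/
theorem bR_shift (x : R p) (k : ℕ) : (x + 1) * bR p x k = (x + 1 - k) * bR p (x + 1) k := by
  unfold bR
  have h1 := prod_range_succ (fun i : ℕ => x + 1 - (i : R p)) k
  have h2 := prod_range_succ' (fun i : ℕ => x + 1 - (i : R p)) k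
  have h3 : ∏ i ∈ range k, (x + 1 - ((i + 1 : ℕ) : R p)) = ∏ i ∈ range k, (x - (i : R p)) := by
    refine prod_congr rfl fun i _ => ?_
    push_cast
    ring
  rw [h3] at h2
  push_cast at h2
  linear_combination ((k.factorial : ℕ) : R p)⁻¹ * (h1 - h2)

/-- Pascal's rule -/
theorem bR_pascal (x : R p) (k : ℕ) (hk : k + 1 < p) :
    bR p (x + 1) (k + 1) = bR p x (k + 1) + bR p x k := by
  unfold bR
  have h2 := prod_range_succ' (fun i : ℕ => x + 1 - (i : R p)) k
  have h3 : ∏ i ∈ range k, (x + 1 - ((i + 1 : ℕ) : R p)) = ∏ i ∈ range k, (x - (i : R p)) := by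
    refine prod_congr rfl fun i _ => ?_
    push_cast
    ring
  rw [h3] at h2
  push_cast at h2
  rw [prod_range_succ (fun i : ℕ => x - (i : R p)) k, h2]
  have h := inv_fact p k hk
  linear_combination (∏ i ∈ range k, (x - (i : R p))) * h

/-- the telescoping identity -/
theorem tele (h x : R p) (h2 : 2 * h = -1) (K : ℕ) (hK : K + 1 ≤ p) :
    ∑ k ∈ range (K + 1), ((x + 2) * bR p (x + 2) k - (x + 1) * bR p x k) *
      ((k.centralBinom : ℕ) : R p) * h ^ k =
    -((K : R p) + 1) * bR p (x + 1) K * (((K + 1).centralBinom : ℕ) : R p) * h ^ (K + 1) := by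
  induction K with
  | zero =>
    rw [zero_add, sum_range_one, bR_zero, bR_zero, bR_zero, Nat.centralBinom_zero]
    have : (Nat.centralBinom 1 : ℕ) = 2 := rfl
    rw [this]
    push_cast
    linear_combination h2
  | succ K ih =>
    rw [sum_range_succ, ih (by omega)]
    have e1 := bR_succ p (x + 1) K (by omega)
    have e2 := congrArg (Nat.cast : ℕ → R p) (Nat.succ_mul_centralBinom_succ (K + 1))
    have e4 := bR_pascal p (x + 1) K (by omega)
    have e5 := bR_shift p x (K + 1)
    rw [show x + 1 + 1 = x + 2 by ring] at e4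
    push_cast at e2 e5 ⊢
    set c1 := bR p (x + 1) (K + 1)
    set c0 := bR p (x + 1) K
    set b1 := (((K + 1).centralBinom : ℕ) : R p)
    set b2 := (((K + 1 + 1).centralBinom : ℕ) : R p)
    set Hh := h ^ (K + 1)
    have e6 : h ^ (K + 1 + 1) = Hh * h := pow_succ h (K + 1)
    rw [e6]
    linear_combination (-b1 * Hh) * e1 + c1 * Hh * h * e2 + b1 * Hh * c1 * (2 * K + 3) * h2 +
      (x + 2) * b1 * Hh * e4 - b1 * Hh * e5

end Pool.Agent.Q156.E8.REC

namespace Pool.Agent.Q156.E8

open Finset Pool.Agent.Q267.CDE Pool.Agent.Q267.MW Pool.Agent.Q267.E8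

/-- **REC.** -/
theorem recT : S_REC := by
  intro p hp h x hp2 h2 hx
  have hp1 := hp.out.two_le
  have h3 := REC.tele p h x h2 (p - 1) (by omega)
  rw [show p - 1 + 1 = p by omega] at h3
  have h4 : (((p - 1 : ℕ) : R p) + 1) = p := by
    have := congrArg (Nat.cast : ℕ → R p) (show p - 1 + 1 = p by omega)
    push_cast at this
    exact this
  rw [h4] at h3
  have h5 : red p (bR p (x + 1) (p - 1)) = 0 := by
    unfold bR
    rw [map_mul, map_prod]
    have h6 : (red p x + 1).val < p := ZMod.val_lt _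
    have h7 : ((red p x + 1).val : ZMod p) = red p x + 1 := ZMod.natCast_zmod_val _
    have h8 : (red p x + 1).val ≠ p - 1 := by
      intro h9
      apply hx
      rw [h9] at h7
      have h10 := congrArg (Nat.cast : ℕ → ZMod p) (show p - 1 + 1 = p by omega)
      rw [ZMod.natCast_self] at h10
      push_cast at h10
      linear_combination h10 - h7
    rw [prod_eq_zero (i := (red p x + 1).val) (mem_range.2 (by omega)), zero_mul]
    rw [map_sub, map_add, map_one, red_nat, h7, sub_self]
  have h6 : (p : R p) * bR p (x + 1) (p - 1) = p * 0 := p_mul_eq p _ _ (by rw [h5, map_zero])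
  rw [mul_zero] at h6
  have h7 : (x + 2) * TT p h (x + 2) - (x + 1) * TT p h x =
      ∑ k ∈ range p, ((x + 2) * bR p (x + 2) k - (x + 1) * bR p x k) *
        ((k.centralBinom : ℕ) : R p) * h ^ k := by
    unfold TT
    rw [mul_sum, mul_sum, ← sum_sub_distrib]
    refine sum_congr rfl fun k _ => ?_
    ring
  rw [← sub_eq_zero, h7, h3]
  linear_combination (-((p.centralBinom : ℕ) : R p) * h ^ p) * h6

end Pool.Agent.Q156.E8
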