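import Pool.Agent.Q267.E8.Stm

set_option autoImplicit false

/-!
# Project E8, job XV (helper156): the value of `∑ C(2k,k)/(k 2^k)` modulo `p`
-/

namespace Pool.Agent.Q156.E8.XV

open Finset Pool.Agent.Q267.CDE Pool.Agent.Q267.MW Pool.Agent.Q267.E8

section field

variable {F : Type*} [Field F]

/-- `∑_{j=1}^m C(m,j) y^j/j = ∑_{j=1}^m ((1+y)^j - 1)/j` -/
theorem sum_choose_div (y : F) (m : ℕ) (hm : ∀ j : ℕ, j < m → (j : F) + 1 ≠ 0) :
    ∑ j ∈ range m, (m.choose (j + 1) : F) * y ^ (j + 1) * ((j : F) + 1)⁻¹ =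
      ∑ j ∈ range m, ((1 + y) ^ (j + 1) - 1) * ((j : F) + 1)⁻¹ := by
  induction m with
  | zero => simp
  | succ m ih =>
    have ih := ih fun j hj => hm j (by omega)
    have hm1 := hm m (by omega)
    rw [sum_range_succ (fun j : ℕ => ((1 + y) ^ (j + 1) - 1) * ((j : F) + 1)⁻¹), ← ih]
    have h1 : ∑ j ∈ range m, (m.choose (j + 1) : F) * y ^ (j + 1) * ((j : F) + 1)⁻¹ =
        ∑ j ∈ range (m + 1), (m.choose (j + 1) : F) * y ^ (j + 1) * ((j : F) + 1)⁻¹ := by
      rw [sum_range_succ, Nat.choose_succ_self]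
      simp
    have h2 : ∀ j ∈ range (m + 1), ((m + 1).choose (j + 1) : F) * y ^ (j + 1) * ((j : F) + 1)⁻¹ =
        (m.choose (j + 1) : F) * y ^ (j + 1) * ((j : F) + 1)⁻¹ +
        ((m + 1).choose (j + 1) : F) * y ^ (j + 1) * ((m : F) + 1)⁻¹ := by
      intro j hj
      have hj' := mem_range.1 hj
      have hj1 := hm j (by omega)
      have h3 := Nat.add_one_mul_choose_eq m j
      have h3' := congrArg (Nat.cast : ℕ → F) h3
      rw [Nat.choose_succ_succ] at h3' ⊢
      push_cast at h3' ⊢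
      field_simp
      linear_combination (y ^ (j + 1)) * h3'
    rw [sum_congr rfl h2, sum_add_distrib, h1, ← sum_mul]
    have h4 : ∑ j ∈ range (m + 1), ((m + 1).choose (j + 1) : F) * y ^ (j + 1) = (1 + y) ^ (m + 1) - 1 := by
      have h5 := add_pow y 1 (m + 1)
      rw [sum_range_succ' (fun k => y ^ k * 1 ^ (m + 1 - k) * ((m + 1).choose k : F))] at h5
      have h6 : ∀ j ∈ range (m + 1), y ^ (j + 1) * 1 ^ (m + 1 - (j + 1)) *
          ((m + 1).choose (j + 1) : F) = ((m + 1).choose (j + 1) : F) * y ^ (j + 1) := by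
        intro j _
        rw [one_pow]
        ring
      rw [sum_congr rfl h6, Nat.choose_zero_right, Nat.cast_one, one_pow, pow_zero] at h5
      rw [add_comm 1 y, h5]
      ring
    rw [h4]

theorem sum_even (h2 : (2 : F) ≠ 0) (t : ℕ) (ht : ∀ j : ℕ, j < t → (j : F) + 1 ≠ 0) :
    ∑ j ∈ range (2 * t), ((-1 : F) ^ (j + 1) - 1) * ((j : F) + 1)⁻¹ =
      -2 * H F (2 * t) + H F t := by
  induction t with
  | zero => simp [H_zero]
  | succ t ih =>
    have ih := ih fun j hj => ht j (by omega)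
    have h3 := ht t (by omega)
    rw [show 2 * (t + 1) = 2 * t + 1 + 1 by ring, sum_range_succ, sum_range_succ, ih, H_succ,
      H_succ (2 * t), H_succ t]
    have h4 : (-1 : F) ^ (2 * t + 1) = -1 := Odd.neg_one_pow ⟨t, rfl⟩
    have h5 : (-1 : F) ^ (2 * t + 1 + 1) = 1 := Even.neg_one_pow ⟨t + 1, by ring⟩
    rw [h4, h5]
    have h6 : (((2 * t + 1 : ℕ) : F) + 1)⁻¹ = 2⁻¹ * ((t : F) + 1)⁻¹ := by
      rw [← mul_inv]
      congr 1
      push_cast
      ring
    rw [h6]
    have h7 : (2 : F) * 2⁻¹ = 1 := mul_inv_cancel₀ h2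
    linear_combination (((t : F) + 1)⁻¹) * h7

theorem sum_all (h2 : (2 : F) ≠ 0) (m : ℕ) (hm : ∀ j : ℕ, j < m → (j : F) + 1 ≠ 0) :
    ∑ j ∈ range m, ((-1 : F) ^ (j + 1) - 1) * ((j : F) + 1)⁻¹ =
      -2 * H F m + H F (m / 2) := by
  rcases Nat.even_or_odd' m with ⟨t, rfl | rfl⟩
  · rw [sum_even h2 t fun j hj => hm j (by omega), show 2 * t / 2 = t by omega]
  · rw [sum_range_succ, sum_even h2 t fun j hj => hm j (by omega), H_succ,
      show (2 * t + 1) / 2 = t by omega]
    have h4 : (-1 : F) ^ (2 * t + 1) = -1 := Odd.neg_one_pow ⟨t, rfl⟩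
    rw [h4]
    ring

end field

/-- `C(2k,k) = (-4)^k C(m,k)` modulo `p = 2m+1` -/
theorem central_eq (p m : ℕ) [hp : Fact p.Prime] (hpm : p = 2 * m + 1) (k : ℕ) (hk : k < p) :
    ((k.centralBinom : ℕ) : ZMod p) = (-4) ^ k * ((m.choose k : ℕ) : ZMod p) := by
  induction k with
  | zero => simp
  | succ k ih =>
    have ih := ih (by omega)
    have h1 := congrArg (Nat.cast : ℕ → ZMod p) (Nat.succ_mul_centralBinom_succ k)
    have h2 : ((k : ZMod p) + 1) * ((m.choose (k + 1) : ℕ) : ZMod p) =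
        ((m : ZMod p) - k) * ((m.choose k : ℕ) : ZMod p) := by
      rcases le_or_gt k m with h | h
      · have h3 := congrArg (Nat.cast : ℕ → ZMod p) (Nat.choose_succ_right_eq m k)
        rw [Nat.cast_mul, Nat.cast_mul, Nat.cast_sub h] at h3
        push_cast at h3
        linear_combination h3
      · rw [Nat.choose_eq_zero_of_lt h, Nat.choose_eq_zero_of_lt (by omega)]
        simp
    have h3 : (2 : ZMod p) * m = -1 := by
      have h6 := congrArg (Nat.cast : ℕ → ZMod p) hpm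
      rw [ZMod.natCast_self] at h6
      push_cast at h6
      linear_combination -h6
    have h4 : ((k : ZMod p) + 1) ≠ 0 := by
      have := Pool.Agent.Q267.CDE.cast_ne p (k + 1) (by omega) hk
      push_cast at this
      exact this
    apply mul_left_cancel₀ h4
    push_cast at h1
    rw [pow_succ]
    linear_combination h1 + 2 * (2 * k + 1) * ih + 4 * (-4) ^ k * h2 +
      2 * (-4) ^ k * ((m.choose k : ℕ) : ZMod p) * h3

end Pool.Agent.Q156.E8.XV

namespace Pool.Agent.Q156.E8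

open Finset Pool.Agent.Q267.CDE Pool.Agent.Q267.MW Pool.Agent.Q267.E8

/-- **XV.** -/
theorem xv : S_XV := by
  intro p m hp Q hpm hp3 hH1 hH2
  have h2 : (2 : ZMod p) ≠ 0 := by
    have := Pool.Agent.Q267.CDE.cast_ne p 2 (by norm_num) (by omega)
    exact_mod_cast this
  have hne : ∀ j : ℕ, j < m → (j : ZMod p) + 1 ≠ 0 := by
    intro j hj
    have := Pool.Agent.Q267.CDE.cast_ne p (j + 1) (by omega) (by omega)
    push_cast at this
    exact this
  have h1 : ∀ k ∈ range (p - 1), (((k + 1).centralBinom : ℕ) : ZMod p) *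
      (((k : ZMod p) + 1) * 2 ^ (k + 1))⁻¹ =
      (m.choose (k + 1) : ZMod p) * (-2) ^ (k + 1) * ((k : ZMod p) + 1)⁻¹ := by
    intro k hk
    have hk' := mem_range.1 hk
    rw [XV.central_eq p m hpm (k + 1) (by omega), mul_inv, show (-4 : ZMod p) = (-2) * 2 by ring,
      mul_pow]
    have h3 : (2 : ZMod p) ^ (k + 1) * (2 ^ (k + 1))⁻¹ = 1 := mul_inv_cancel₀ (pow_ne_zero _ h2)
    linear_combination ((-2 : ZMod p) ^ (k + 1) * ((m.choose (k + 1) : ℕ) : ZMod p) *
      ((k : ZMod p) + 1)⁻¹) * h3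
  rw [sum_congr rfl h1]
  have h3 : ∑ k ∈ range m, (m.choose (k + 1) : ZMod p) * (-2) ^ (k + 1) * ((k : ZMod p) + 1)⁻¹ =
      ∑ k ∈ range (p - 1), (m.choose (k + 1) : ZMod p) * (-2) ^ (k + 1) * ((k : ZMod p) + 1)⁻¹ := by
    apply sum_subset
    · intro k hk
      rw [mem_range] at hk ⊢
      omega
    · intro k _ hk
      rw [mem_range, not_lt] at hk
      rw [Nat.choose_eq_zero_of_lt (by omega)]
      simp
  rw [← h3, XV.sum_choose_div (-2 : ZMod p) m hne, show (1 : ZMod p) + -2 = -1 by ring,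
    XV.sum_all h2 m hne, hH1, show m / 2 = p / 4 by omega, hH2]
  ring

end Pool.Agent.Q156.E8
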